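import Pool.Agent.helper54.GR3.Spec

/-!
# Project g3, module PAI: the pair inequality
-/

set_option autoImplicit false

open Complex Metric Set Filter Topology MeasureTheory
open MPS (om)
open PPS (pre TT fd)
open XPS (Df er dens tau)
open Pool.Agent.helper16.Multibrot

noncomputable section

namespace GR

theorem PAI_mono (a b : ℂ) (t : ℝ) (h0 : 0 ≤ t) (h1 : t ≤ 1) :
    ‖a‖ + t * ‖b‖ - ‖a + (t : ℂ) * b‖ ≤ ‖a‖ + ‖b‖ - ‖a + b‖ := by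
  have h2 : a + b = (a + (t : ℂ) * b) + ((1 - t : ℝ) : ℂ) * b := by
    push_cast
    ring
  have h3 : ‖a + b‖ ≤ ‖a + (t : ℂ) * b‖ + (1 - t) * ‖b‖ := by
    rw [h2]
    refine (norm_add_le _ _).trans ?_
    rw [norm_mul, Complex.norm_real, Real.norm_eq_abs, abs_of_nonneg (by linarith)]
  linarith

theorem PAI_mono2 (a b : ℂ) (s t : ℝ) (hs0 : 0 ≤ s) (hs1 : s ≤ 1) (ht0 : 0 ≤ t) (ht1 : t ≤ 1) :
    s * ‖a‖ + t * ‖b‖ - ‖(s : ℂ) * a + (t : ℂ) * b‖ ≤ ‖a‖ + ‖b‖ - ‖a + b‖ := by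
  have h1 := PAI_mono a b t ht0 ht1
  have h2 := PAI_mono ((t : ℂ) * b) a s hs0 hs1
  rw [norm_mul, Complex.norm_real, Real.norm_eq_abs, abs_of_nonneg ht0, add_comm ((t : ℂ) * b),
    add_comm ((t : ℂ) * b)] at h2
  linarith

theorem PAI_unit (v w a₁ a₂ b₁ b₂ : ℂ) (hv : ‖v‖ = 1) (hw : ‖w‖ = 1) (ha₁ : ‖a₁ - v‖ ≤ 1 / 16)
    (ha₂ : ‖a₂ + v‖ ≤ 1 / 16) (hb₁ : ‖b₁ - w‖ ≤ 1 / 16) (hb₂ : ‖b₂ - w‖ ≤ 1 / 16) :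
    1 / 8 ≤ (‖a₁‖ + ‖b₁‖ - ‖a₁ + b₁‖) + (‖a₂‖ + ‖b₂‖ - ‖a₂ + b₂‖) := by
  have h1 : 15 / 16 ≤ ‖a₁‖ := by
    have : ‖v‖ ≤ ‖a₁‖ + ‖a₁ - v‖ := by
      have h : v = a₁ - (a₁ - v) := by ring
      calc ‖v‖ = ‖a₁ - (a₁ - v)‖ := by rw [← h]
        _ ≤ _ := norm_sub_le _ _
    linarith
  have h2 : 15 / 16 ≤ ‖a₂‖ := by
    have : ‖v‖ ≤ ‖a₂‖ + ‖a₂ + v‖ := by
      have h : v = (a₂ + v) - a₂ := by ring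
      calc ‖v‖ = ‖(a₂ + v) - a₂‖ := by rw [← h]
        _ ≤ ‖a₂ + v‖ + ‖a₂‖ := norm_sub_le _ _
        _ = _ := add_comm _ _
    linarith
  have h3 : 15 / 16 ≤ ‖b₁‖ := by
    have : ‖w‖ ≤ ‖b₁‖ + ‖b₁ - w‖ := by
      have h : w = b₁ - (b₁ - w) := by ring
      calc ‖w‖ = ‖b₁ - (b₁ - w)‖ := by rw [← h]
        _ ≤ _ := norm_sub_le _ _
    linarith
  have h4 : 15 / 16 ≤ ‖b₂‖ := by
    have : ‖w‖ ≤ ‖b₂‖ + ‖b₂ - w‖ := by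
      have h : w = b₂ - (b₂ - w) := by ring
      calc ‖w‖ = ‖b₂ - (b₂ - w)‖ := by rw [← h]
        _ ≤ _ := norm_sub_le _ _
    linarith
  have h5 : ‖a₁ + b₁‖ ≤ ‖v + w‖ + 1 / 8 := by
    have h : a₁ + b₁ = (v + w) + ((a₁ - v) + (b₁ - w)) := by ring
    rw [h]
    refine (norm_add_le _ _).trans ?_
    have := norm_add_le (a₁ - v) (b₁ - w)
    linarith
  have h6 : ‖a₂ + b₂‖ ≤ ‖v - w‖ + 1 / 8 := by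
    have h : a₂ + b₂ = -(v - w) + ((a₂ + v) + (b₂ - w)) := by ring
    rw [h]
    refine (norm_add_le _ _).trans ?_
    rw [norm_neg]
    have := norm_add_le (a₂ + v) (b₂ - w)
    linarith
  have h7 := parallelogram_law_with_norm ℝ v w
  rw [hv, hw] at h7
  have h8 : ‖v + w‖ + ‖v - w‖ ≤ 3 := by
    nlinarith [sq_nonneg (‖v + w‖ - ‖v - w‖), norm_nonneg (v + w), norm_nonneg (v - w)]
  linarith

theorem PAI : PAI_stmt := by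
  intro v w a₁ a₂ b₁ b₂ hv hw ha₁ ha₂ hb₁ hb₂
  have hv0 : 0 < ‖v‖ := by linarith
  have hw0 : 0 < ‖w‖ := by linarith
  have hs0 : 0 ≤ ‖v‖⁻¹ := by positivity
  have ht0 : 0 ≤ ‖w‖⁻¹ := by positivity
  have hs1 : ‖v‖⁻¹ ≤ 1 := inv_le_one_of_one_le₀ hv
  have ht1 : ‖w‖⁻¹ ≤ 1 := inv_le_one_of_one_le₀ hw
  have hsc : ∀ (s : ℝ) (z : ℂ), 0 ≤ s → ‖(s : ℂ) * z‖ = s * ‖z‖ := by
    intro s z hs
    rw [norm_mul, Complex.norm_real, Real.norm_eq_abs, abs_of_nonneg hs]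
  have key := PAI_unit (((‖v‖⁻¹ : ℝ) : ℂ) * v) (((‖w‖⁻¹ : ℝ) : ℂ) * w) (((‖v‖⁻¹ : ℝ) : ℂ) * a₁)
    (((‖v‖⁻¹ : ℝ) : ℂ) * a₂) (((‖w‖⁻¹ : ℝ) : ℂ) * b₁) (((‖w‖⁻¹ : ℝ) : ℂ) * b₂)
    (by rw [hsc _ _ hs0, inv_mul_cancel₀ hv0.ne']) (by rw [hsc _ _ ht0, inv_mul_cancel₀ hw0.ne'])
    (by rw [← mul_sub, hsc _ _ hs0, inv_mul_le_iff₀ hv0]; linarith)
    (by rw [← mul_add, hsc _ _ hs0, inv_mul_le_iff₀ hv0]; linarith)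
    (by rw [← mul_sub, hsc _ _ ht0, inv_mul_le_iff₀ hw0]; linarith)
    (by rw [← mul_sub, hsc _ _ ht0, inv_mul_le_iff₀ hw0]; linarith)
  rw [hsc _ a₁ hs0, hsc _ a₂ hs0, hsc _ b₁ ht0, hsc _ b₂ ht0] at key
  have m1 := PAI_mono2 a₁ b₁ _ _ hs0 hs1 ht0 ht1
  have m2 := PAI_mono2 a₂ b₂ _ _ hs0 hs1 ht0 ht1
  linarith

end GR
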